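import Mathlib

/-!
# Parities of complete mappings: statements
-/

set_option autoImplicit false

namespace Pool.Agent.Y382.PAR

universe u

/-- The sign of a permutation of a finite type. -/
noncomputable def sgn {X : Type u} [Finite X] (f : Equiv.Perm X) : ℤˣ :=
  @Equiv.Perm.sign X (Classical.decEq X) (Fintype.ofFinite X) f

theorem sgn_eq {X : Type u} [h1 : Fintype X] [h2 : DecidableEq X] (f : Equiv.Perm X) :
    sgn f = Equiv.Perm.sign f := by
  unfold sgn
  congr
  · exact Subsingleton.elim _ _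
  · exact Subsingleton.elim _ _

theorem sgn_mul {X : Type u} [Finite X] (f g : Equiv.Perm X) : sgn (f * g) = sgn f * sgn g := by
  unfold sgn
  exact map_mul _ _ _

theorem sgn_inv {X : Type u} [Finite X] (f : Equiv.Perm X) : sgn f⁻¹ = sgn f := by
  classical
  have := Fintype.ofFinite X
  rw [sgn_eq, sgn_eq, Equiv.Perm.sign_inv]

theorem sgn_congr {X Y : Type u} [Finite X] [Finite Y] (e : X ≃ Y) (f : Equiv.Perm X) :
    sgn (e.permCongr f) = sgn f := by
  classical
  have := Fintype.ofFinite X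
  have := Fintype.ofFinite Y
  rw [sgn_eq, sgn_eq, Equiv.Perm.sign_permCongr]

/-- All four combinations of signs of a complete mapping `f` and of the associated orthomorphism `F x = x f(x)` occur. -/
def AllPar (G : Type u) [Group G] [Finite G] : Prop :=
  ∀ ε δ : ℤˣ, ∃ f F : Equiv.Perm G, (∀ x, F x = x * f x) ∧ sgn f = ε ∧ sgn F = δ

/-- Transport. -/
def S_ISO : Prop := ∀ (G H : Type u) [Group G] [Group H] [Finite G] [Finite H], (G ≃* H) → AllPar G → AllPar H

/-- Linear maps of the prime field, `p ≥ 7`. -/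
def S_PRI : Prop := ∀ (p : ℕ) [Fact p.Prime], 7 ≤ p → ∀ ε δ : ℤˣ, ∃ f F : Equiv.Perm (ZMod p),
  (∀ x, F x = x + f x) ∧ sgn f = ε ∧ sgn F = δ

/-- Subgroups of groups of odd order. -/
def S_SUB : Prop := ∀ (G : Type u) [Group G] [Finite G] (H : Subgroup G), Odd (Nat.card G) → AllPar H → AllPar G

/-- Normal subgroups whose quotient has a complete mapping. -/
def S_EXT : Prop := ∀ (G : Type u) [Group G] [Finite G] (N : Subgroup G) [N.Normal],
  (∃ f F : Equiv.Perm (G ⧸ N), ∀ x, F x = x * f x) → AllPar N → AllPar G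

/-- Normal subgroups of order five. -/
def S_FIV : Prop := ∀ (G : Type u) [Group G] [Finite G] (N : Subgroup G) [N.Normal], Nat.card N = 5 → N ≠ ⊤ →
  (∃ f F : Equiv.Perm (G ⧸ N), ∀ x, F x = x * f x) → AllPar G

/-- Groups of order nine. -/
def S_NIN : Prop := ∀ (G : Type u) [Group G] [Finite G], Nat.card G = 9 → AllPar G

/-- The groups of order 1, 3, 5. -/
def S_SML : Prop := ∀ (G : Type u) [Group G] [Finite G], Nat.card G = 1 ∨ Nat.card G = 3 ∨ Nat.card G = 5 → ¬ AllPar G

end Pool.Agent.Y382.PAR
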