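import Pool.Agent.Y382.PAR.Stm

/-!
# Parities of complete mappings: assembly
-/

set_option autoImplicit false

namespace Pool.Agent.Y382.PAR

universe u

/-- A group of odd order has the complete mapping `x ↦ x`. -/
theorem odd_cm (Q : Type u) [Group Q] [Finite Q] (h : Odd (Nat.card Q)) :
    ∃ f F : Equiv.Perm Q, ∀ x, F x = x * f x := by
  have hc : (Nat.card Q).Coprime 2 := Nat.coprime_two_right.2 h
  have hb : Function.Bijective (fun x : Q => x * x) := by
    have := Nat.Coprime.pow_left_bijective (G := Q) hc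
    simpa only [pow_two] using this
  exact ⟨1, Equiv.ofBijective _ hb, fun x => rfl⟩

theorem odd_all (hPRI : ∀ (G : Type u) [Group G] [Finite G] (p : ℕ), p.Prime → 7 ≤ p → Nat.card G = p → AllPar G)
    (hSUB : S_SUB.{u}) (hFIV : S_FIV.{u}) (hNIN : S_NIN.{u})
    (hARI : ∀ (G : Type u) [Group G] [Finite G], Odd (Nat.card G) → Nat.card G ≠ 1 → Nat.card G ≠ 3 →
      Nat.card G ≠ 5 → (∃ p : ℕ, p.Prime ∧ 7 ≤ p ∧ ∃ H : Subgroup G, Nat.card H = p) ∨
        (∃ H : Subgroup G, Nat.card H = 9) ∨ (∃ H : Subgroup G, Nat.card H = 25) ∨ Nat.card G = 15)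
    (hARI2 : ∀ (G : Type u) [Group G] [Finite G], Nat.card G = 25 ∨ Nat.card G = 15 →
      ∃ N : Subgroup G, N.Normal ∧ Nat.card N = 5 ∧ N ≠ ⊤)
    (G : Type u) [Group G] [Finite G] (hodd : Odd (Nat.card G)) (h1 : Nat.card G ≠ 1) (h3 : Nat.card G ≠ 3)
    (h5 : Nat.card G ≠ 5) : AllPar G := by
  have key : ∀ (H : Type u) [Group H] [Finite H], Nat.card H = 25 ∨ Nat.card H = 15 → AllPar H := by
    intro H _ _ hH
    obtain ⟨N, hN, hN5, hNt⟩ := hARI2 H hH
    have hHodd : Odd (Nat.card H) := by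
      rcases hH with h | h <;> rw [h] <;> decide
    refine hFIV H N hN5 hNt (odd_cm _ (Odd.of_dvd_nat hHodd (Subgroup.card_quotient_dvd_card N)))
  rcases hARI G hodd h1 h3 h5 with ⟨p, hp, hp7, H, hH⟩ | ⟨H, hH⟩ | ⟨H, hH⟩ | h
  · exact hSUB G H hodd (hPRI H p hp hp7 hH)
  · exact hSUB G H hodd (hNIN H hH)
  · exact hSUB G H hodd (key H (Or.inl hH))
  · exact key G (Or.inr h)

/-- The two descriptions agree. -/
theorem allPar_iff (G : Type u) [Group G] [Fintype G] [DecidableEq G] : AllPar G ↔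
    ∀ a b : ℤˣ, ∃ f : Equiv.Perm G, ∃ hf : Function.Bijective (fun x : G => x * f x),
      Equiv.Perm.sign f = a ∧ Equiv.Perm.sign (Equiv.ofBijective (fun x : G => x * f x) hf) = b := by
  constructor
  · intro h a b
    obtain ⟨f, F, hF, h1, h2⟩ := h a b
    have hfun : (fun x : G => x * f x) = F := by
      funext x
      rw [hF]
    have hb : Function.Bijective (fun x : G => x * f x) := by
      rw [hfun]
      exact F.bijective
    refine ⟨f, hb, by rw [← sgn_eq, h1], ?_⟩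
    have : Equiv.ofBijective (fun x : G => x * f x) hb = F := by
      ext x
      simp only [Equiv.ofBijective_apply, hF]
    rw [this, ← sgn_eq, h2]
  · intro h a b
    obtain ⟨f, hb, h1, h2⟩ := h a b
    refine ⟨f, Equiv.ofBijective _ hb, fun x => rfl, ?_, ?_⟩
    · rw [sgn_eq, h1]
    · rw [sgn_eq, h2]

theorem odd_res
    (hO : ∀ (G : Type u) [Group G] [Finite G], Odd (Nat.card G) → Nat.card G ≠ 1 → Nat.card G ≠ 3 →
      Nat.card G ≠ 5 → AllPar G) (hSML : S_SML.{u})
    (G : Type u) [Group G] [Finite G] (hodd : Odd (Nat.card G)) :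
    AllPar G ↔ Nat.card G ≠ 1 ∧ Nat.card G ≠ 3 ∧ Nat.card G ≠ 5 := by
  constructor
  · intro h
    refine ⟨fun h1 => ?_, fun h1 => ?_, fun h1 => ?_⟩
    · exact hSML G (Or.inl h1) h
    · exact hSML G (Or.inr (Or.inl h1)) h
    · exact hSML G (Or.inr (Or.inr h1)) h
  · rintro ⟨h1, h3, h5⟩
    exact hO G hodd h1 h3 h5

end Pool.Agent.Y382.PAR
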